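import Mathlib

/-!
# MP_f836a2: the positivity pattern fails at `k = 1`, `n = 5`.

`F_k(q) = (-1)^(k-1) (P_k(q)/(q;q)_oo - 1) (q,q^6,q^7;q^7)_oo`.
For `k = 1` the coefficient of `q^5` is `0`, although `5 >= N_1 + 2 = 4`.
-/

namespace Pool.Agent.Results.MP_f836a2_nt.NotPositive

open PowerSeries Finset

/-- The infinite product `∏_{m ≥ 1, m ∈ S} (1 - q^m)` as a formal power series: its `n`-th
coefficient is the `n`-th coefficient of the finite product over `m ∈ S`, `1 ≤ m ≤ n` (the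
factors with `m > n` do not influence the coefficient of `q^n`). -/
noncomputable def eulerProd (S : ℕ → Prop) [DecidablePred S] : PowerSeries ℤ :=
  PowerSeries.mk fun n =>
    PowerSeries.coeff n (∏ m ∈ (Finset.Icc 1 n).filter S, (1 - (X : PowerSeries ℤ) ^ m))

/-- `(q;q)_∞`. -/
noncomputable def qq : PowerSeries ℤ := eulerProd (fun _ => True)

/-- `(q,q^6,q^7;q^7)_∞`, the product of `1 - q^m` over `m ≥ 1` with `m ≡ 0, 1, 6 (mod 7)`. -/
noncomputable def theta7 : PowerSeries ℤ :=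
  eulerProd (fun m => m % 7 = 0 ∨ m % 7 = 1 ∨ m % 7 = 6)

/-- The truncated pentagonal sum `P_k(q) = ∑_{i=1-k}^{k} (-1)^i q^(i(3i-1)/2)`. -/
noncomputable def P (k : ℕ) : PowerSeries ℤ :=
  ∑ i ∈ Finset.Icc (1 - (k : ℤ)) k,
    (-1 : PowerSeries ℤ) ^ i.natAbs * (X : PowerSeries ℤ) ^ (i * (3 * i - 1) / 2).toNat

/-- `F_k(q) = (-1)^(k-1) (P_k(q)/(q;q)_∞ - 1) (q,q^6,q^7;q^7)_∞`, where `1/(q;q)_∞` is the inverse
power series (the constant coefficient of `(q;q)_∞` is `1`). -/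
noncomputable def F (k : ℕ) : PowerSeries ℤ :=
  (-1) ^ (k - 1) * (P k * PowerSeries.invOfUnit qq 1 - 1) * theta7

lemma coeff_eulerProd (S : ℕ → Prop) [DecidablePred S] (n : ℕ) :
    PowerSeries.coeff n (eulerProd S) =
      PowerSeries.coeff n (∏ m ∈ (Finset.Icc 1 n).filter S, (1 - (X : PowerSeries ℤ) ^ m)) := by
  simp [eulerProd]

lemma qq0 : PowerSeries.coeff 0 qq = 1 := by
  simp [qq, coeff_eulerProd]

lemma P1 : P 1 = 1 - X := by
  have : Finset.Icc (1 - ((1 : ℕ) : ℤ)) ((1 : ℕ) : ℤ) = {0, 1} := by decide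
  rw [P, this, Finset.sum_pair (by decide)]
  norm_num
  ring

lemma qq_coeffs : PowerSeries.coeff 1 qq = -1 ∧ PowerSeries.coeff 2 qq = -1 ∧
    PowerSeries.coeff 3 qq = 0 ∧ PowerSeries.coeff 4 qq = 0 ∧ PowerSeries.coeff 5 qq = 1 := by
  have h : ∀ n, PowerSeries.coeff n qq = PowerSeries.coeff n
      (∏ m ∈ Finset.Icc 1 n, (1 - (X : PowerSeries ℤ) ^ m)) := by
    intro n
    rw [qq, coeff_eulerProd]
    simp
  refine ⟨?_, ?_, ?_, ?_, ?_⟩
  · rw [h]
    have : (∏ m ∈ Finset.Icc 1 1, (1 - (X : PowerSeries ℤ) ^ m)) = 1 - X := by simp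
    rw [this]; simp [PowerSeries.coeff_one]
  · rw [h]
    have : (∏ m ∈ Finset.Icc 1 2, (1 - (X : PowerSeries ℤ) ^ m)) = 1 - X - X ^ 2 + X ^ 3 := by
      rw [Finset.prod_Icc_succ_top (by norm_num)]
      simp only [Finset.Icc_self, Finset.prod_singleton]; ring
    rw [this]; simp [PowerSeries.coeff_one, PowerSeries.coeff_X_pow, PowerSeries.coeff_X]
  · rw [h]
    have : (∏ m ∈ Finset.Icc 1 3, (1 - (X : PowerSeries ℤ) ^ m)) =
        1 - X - X ^ 2 + X ^ 4 + X ^ 5 - X ^ 6 := by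
      rw [Finset.prod_Icc_succ_top (by norm_num), Finset.prod_Icc_succ_top (by norm_num)]
      simp only [Finset.Icc_self, Finset.prod_singleton]; ring
    rw [this]; simp [PowerSeries.coeff_one, PowerSeries.coeff_X_pow, PowerSeries.coeff_X]
  · rw [h]
    have : (∏ m ∈ Finset.Icc 1 4, (1 - (X : PowerSeries ℤ) ^ m)) =
        (1 - X - X ^ 2 + X ^ 4 + X ^ 5 - X ^ 6) * (1 - X ^ 4) := by
      rw [Finset.prod_Icc_succ_top (by norm_num), Finset.prod_Icc_succ_top (by norm_num),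
        Finset.prod_Icc_succ_top (by norm_num)]
      simp only [Finset.Icc_self, Finset.prod_singleton]; ring
    have h2 : ((1 - X - X ^ 2 + X ^ 4 + X ^ 5 - X ^ 6) * (1 - X ^ 4) : PowerSeries ℤ) =
      1 - X - X ^ 2 + X ^ 5 + X ^ 5 - X ^ 8 - X ^ 9 + X ^ 10 := by ring
    rw [this, h2]
    simp [PowerSeries.coeff_one, PowerSeries.coeff_X_pow, PowerSeries.coeff_X]
  · rw [h]
    have : (∏ m ∈ Finset.Icc 1 5, (1 - (X : PowerSeries ℤ) ^ m)) =
        (1 - X - X ^ 2 + 2 * X ^ 5 - X ^ 8 - X ^ 9 + X ^ 10) * (1 - X ^ 5) := by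
      rw [Finset.prod_Icc_succ_top (by norm_num), Finset.prod_Icc_succ_top (by norm_num),
        Finset.prod_Icc_succ_top (by norm_num), Finset.prod_Icc_succ_top (by norm_num)]
      simp only [Finset.Icc_self, Finset.prod_singleton]; ring
    have h2 : ((1 - X - X ^ 2 + 2 * X ^ 5 - X ^ 8 - X ^ 9 + X ^ 10) * (1 - X ^ 5) :
        PowerSeries ℤ) =
      1 - X - X ^ 2 + X ^ 5 + X ^ 6 + X ^ 7 - X ^ 8 - X ^ 9 - X ^ 10 + X ^ 13 + X ^ 14
        - X ^ 15 := by ring
    rw [this, h2]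
    simp [PowerSeries.coeff_one, PowerSeries.coeff_X_pow, PowerSeries.coeff_X]

lemma theta_coeffs : PowerSeries.coeff 0 theta7 = 1 ∧ PowerSeries.coeff 1 theta7 = -1 ∧
    PowerSeries.coeff 2 theta7 = 0 ∧ PowerSeries.coeff 3 theta7 = 0 ∧
    PowerSeries.coeff 4 theta7 = 0 ∧ PowerSeries.coeff 5 theta7 = 0 := by
  have key : ∀ n, n ≤ 5 → 1 ≤ n → ((Finset.Icc 1 n).filter
      (fun m => m % 7 = 0 ∨ m % 7 = 1 ∨ m % 7 = 6)) = {1} := by
    intro n hn h1
    interval_cases n <;> decide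
  have h : ∀ n, n ≤ 5 → 1 ≤ n → PowerSeries.coeff n theta7 =
      PowerSeries.coeff n (1 - (X : PowerSeries ℤ)) := by
    intro n hn h1
    rw [theta7, coeff_eulerProd, key n hn h1]; simp
  refine ⟨?_, ?_, ?_, ?_, ?_, ?_⟩
  · simp [theta7, coeff_eulerProd]
  · rw [h 1 (by norm_num) (by norm_num)]; simp [PowerSeries.coeff_one]
  · rw [h 2 (by norm_num) (by norm_num)]; simp [PowerSeries.coeff_one, PowerSeries.coeff_X]
  · rw [h 3 (by norm_num) (by norm_num)]; simp [PowerSeries.coeff_one, PowerSeries.coeff_X]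
  · rw [h 4 (by norm_num) (by norm_num)]; simp [PowerSeries.coeff_one, PowerSeries.coeff_X]
  · rw [h 5 (by norm_num) (by norm_num)]; simp [PowerSeries.coeff_one, PowerSeries.coeff_X]

lemma coeff_mul5 (A B : PowerSeries ℤ) (n : ℕ) : PowerSeries.coeff n (A * B) =
    ∑ i ∈ Finset.range (n + 1), PowerSeries.coeff i A * PowerSeries.coeff (n - i) B := by
  rw [PowerSeries.coeff_mul, Finset.Nat.sum_antidiagonal_eq_sum_range_succ
    (fun i j => PowerSeries.coeff i A * PowerSeries.coeff j B)]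

/-- The coefficient of `q^5` in `F_1(q)` vanishes. -/
lemma coeff5 : PowerSeries.coeff 5 (F 1) = 0 := by
  set I := PowerSeries.invOfUnit qq 1 with hI
  have hmul : qq * I = 1 := by
    apply PowerSeries.mul_invOfUnit
    simpa using qq0
  obtain ⟨q1, q2, q3, q4, q5⟩ := qq_coeffs
  have q0 := qq0
  obtain ⟨t0, t1, t2, t3, t4, t5⟩ := theta_coeffs
  have e : ∀ n, ∑ i ∈ Finset.range (n + 1), PowerSeries.coeff i qq *
      PowerSeries.coeff (n - i) I = PowerSeries.coeff n (1 : PowerSeries ℤ) := by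
    intro n; rw [← coeff_mul5, hmul]
  have e0 := e 0
  have e1 := e 1
  have e2 := e 2
  have e3 := e 3
  have e4 := e 4
  have e5 := e 5
  simp [Finset.sum_range_succ, PowerSeries.coeff_one, q0, q1, q2, q3, q4, q5] at e0 e1 e2 e3 e4 e5
  have hF : F 1 = (I - X * I - 1) * theta7 := by
    rw [F, P1, ← hI]; ring
  have hX : ∀ n, PowerSeries.coeff (n + 1) (X * I) = PowerSeries.coeff n I := by
    intro n; rw [PowerSeries.coeff_succ_X_mul]
  have hX0 : PowerSeries.coeff 0 (X * I) = 0 := by simp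
  have c0 : PowerSeries.coeff 0 (I - X * I - 1) = 0 := by
    simp [PowerSeries.coeff_one] at *
    linarith
  rw [hF, coeff_mul5]
  simp only [Finset.sum_range_succ, Finset.range_zero, Finset.sum_empty, zero_add,
    Nat.sub_zero, Nat.reduceSub, t0, t1, t2, t3, t4, t5, mul_zero, mul_one, map_sub,
    PowerSeries.coeff_one]
  have h4 : PowerSeries.coeff 4 (X * I) = PowerSeries.coeff 3 I := hX 3
  have h5 : PowerSeries.coeff 5 (X * I) = PowerSeries.coeff 4 I := hX 4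
  rw [h4, h5]
  norm_num
  linarith

/-- The assertion of Q1 of MP_f836a2 is false: it is not true that for every `k ≥ 1` the
coefficient `c_k(n)` of `F_k(q)` vanishes for `n < N_k` and `n = N_k + 1` and is positive for
`n = N_k` and every `n ≥ N_k + 2`, where `N_k = k(3k+1)/2`. -/
theorem result : ¬ ∀ k : ℕ, 1 ≤ k →
    (∀ n : ℕ, (n < k * (3 * k + 1) / 2 ∨ n = k * (3 * k + 1) / 2 + 1) →
      PowerSeries.coeff n (F k) = 0) ∧
    (∀ n : ℕ, (n = k * (3 * k + 1) / 2 ∨ k * (3 * k + 1) / 2 + 2 ≤ n) →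
      0 < PowerSeries.coeff n (F k)) := by
  intro h
  have h1 := (h 1 le_rfl).2 5 (by right; norm_num)
  rw [coeff5] at h1
  exact lt_irrefl _ h1

end Pool.Agent.Results.MP_f836a2_nt.NotPositive
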